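import Pool.Agent.N520.SV.Stm

/-!
# Project SV: `ℓ¹`-seminorm and bounded cocycles (`S_HB`)
-/

set_option autoImplicit false

open Set Filter Topology

namespace Pool.Agent.N340.SV.HB

open Pool.Agent.N520.SV

variable {M : Type} [TopologicalSpace M] {k : ℕ}

theorem norm1_eq (c : Chain k M) : norm1 c = c.sum fun _ a => |a| := rfl

theorem norm1_nonneg (c : Chain k M) : 0 ≤ norm1 c :=
  Finset.sum_nonneg fun _ _ => abs_nonneg _

theorem norm1_superset (c : Chain k M) (s : Finset C(Sx k, M)) (h : c.support ⊆ s) :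
    norm1 c = ∑ σ ∈ s, |c σ| := by
  refine Finset.sum_subset h fun σ _ hσ => ?_
  rw [Finsupp.notMem_support_iff.1 hσ, abs_zero]

theorem norm1_add (a b : Chain k M) : norm1 (a + b) ≤ norm1 a + norm1 b := by
  classical
  rw [norm1_superset (a + b) (a.support ∪ b.support) Finsupp.support_add,
    norm1_superset a (a.support ∪ b.support) Finset.subset_union_left,
    norm1_superset b (a.support ∪ b.support) Finset.subset_union_right, ← Finset.sum_add_distrib]
  exact Finset.sum_le_sum fun σ _ => abs_add_le _ _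

theorem norm1_zero : norm1 (0 : Chain k M) = 0 := by
  unfold norm1
  simp

theorem norm1_smul (t : ℝ) (a : Chain k M) : norm1 (t • a) = |t| * norm1 a := by
  rw [norm1_superset (t • a) a.support Finsupp.support_smul, norm1, Finset.mul_sum]
  refine Finset.sum_congr rfl fun σ _ => ?_
  rw [Finsupp.smul_apply, smul_eq_mul, abs_mul]

theorem norm1_neg (a : Chain k M) : norm1 (-a) = norm1 a := by
  rw [← neg_one_smul ℝ a, norm1_smul, abs_neg, abs_one, one_mul]

theorem norm1_single (σ : C(Sx k, M)) : norm1 (Finsupp.single σ (1 : ℝ)) = 1 := by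
  classical
  rw [norm1_superset _ {σ} Finsupp.support_single_subset, Finset.sum_singleton,
    Finsupp.single_eq_same, abs_one]

/-- the seminorm of the homology class -/
noncomputable def pp (a : Chain (k + 1) M) : ℝ :=
  ⨅ c : Chain (k + 2) M, norm1 (a + bdry (k + 1) c)

theorem pp_bdd (a : Chain (k + 1) M) :
    BddBelow (Set.range fun c : Chain (k + 2) M => norm1 (a + bdry (k + 1) c)) :=
  ⟨0, by rintro _ ⟨c, rfl⟩; exact norm1_nonneg _⟩

theorem pp_le (a : Chain (k + 1) M) (c : Chain (k + 2) M) :
    pp a ≤ norm1 (a + bdry (k + 1) c) := ciInf_le (pp_bdd a) c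

theorem pp_smul_le (t : ℝ) (ht : 0 < t) (a : Chain (k + 1) M) : pp (t • a) ≤ t * pp a := by
  have h : pp (t • a) / t ≤ pp a := by
    refine le_ciInf fun c => ?_
    rw [div_le_iff₀ ht]
    refine (pp_le (t • a) (t • c)).trans (le_of_eq ?_)
    rw [map_smul, ← smul_add, norm1_smul, abs_of_pos ht, mul_comm]
  rw [div_le_iff₀ ht] at h
  linarith

theorem pp_smul (t : ℝ) (ht : 0 < t) (a : Chain (k + 1) M) : pp (t • a) = t * pp a := by
  refine le_antisymm (pp_smul_le t ht a) ?_
  have h := pp_smul_le t⁻¹ (inv_pos.2 ht) (t • a)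
  rw [smul_smul, inv_mul_cancel₀ ht.ne', one_smul] at h
  have h2 := mul_le_mul_of_nonneg_left h ht.le
  rwa [← mul_assoc, mul_inv_cancel₀ ht.ne', one_mul] at h2

theorem pp_add (a b : Chain (k + 1) M) : pp (a + b) ≤ pp a + pp b := by
  have h : ∀ c c' : Chain (k + 2) M, pp (a + b) ≤
      norm1 (a + bdry (k + 1) c) + norm1 (b + bdry (k + 1) c') := by
    intro c c'
    refine (pp_le (a + b) (c + c')).trans ?_
    rw [map_add, add_add_add_comm]
    exact norm1_add _ _
  have h2 : ∀ c : Chain (k + 2) M, pp (a + b) - norm1 (a + bdry (k + 1) c) ≤ pp b := by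
    intro c
    refine le_ciInf fun c' => ?_
    have := h c c'
    linarith
  have h3 : pp (a + b) - pp b ≤ pp a := by
    refine le_ciInf fun c => ?_
    have := h2 c
    linarith
  linarith

/-- duality -/
theorem t_hb : S_HB := by
  intro M _ k hB z hz ε hε
  by_contra hcon
  push Not at hcon
  have hpz : ε ≤ pp z := le_ciInf hcon
  have hp0 : pp (0 : Chain (k + 1) M) ≤ 0 := by
    have h := pp_le (0 : Chain (k + 1) M) (0 : Chain (k + 2) M)
    rwa [map_zero, add_zero, norm1_zero] at h
  have hz0 : z ≠ 0 := by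
    rintro rfl
    linarith
  obtain ⟨g, hg1, hg2⟩ := exists_extension_of_le_sublinear
    (LinearPMap.mkSpanSingleton z (pp z) hz0) (pp (M := M) (k := k)) (fun c hc x => pp_smul c hc x)
    pp_add (by
      rintro ⟨x, hx⟩
      obtain ⟨t, rfl⟩ := Submodule.mem_span_singleton.1 hx
      rw [LinearPMap.mkSpanSingleton'_apply]
      simp only [RingHom.id_apply, smul_eq_mul]
      rcases lt_trichotomy t 0 with ht | ht | ht
      · have h1 : 0 ≤ pp (t • z) := by
          exact Real.iInf_nonneg fun c => norm1_nonneg _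
        nlinarith
      · subst ht
        rw [zero_mul]
        exact Real.iInf_nonneg fun c => norm1_nonneg _
      · rw [pp_smul t ht])
  have hgz : g z = pp z := by
    have h := hg1 ⟨z, Submodule.mem_span_singleton_self z⟩
    rw [LinearPMap.mkSpanSingleton_apply] at h
    exact h
  have hgb : ∀ c : Chain (k + 2) M, g (bdry (k + 1) c) ≤ 0 := by
    intro c
    refine (hg2 _).trans ((pp_le _ (-c)).trans ?_)
    rw [map_neg, add_neg_cancel, norm1_zero]
  have hgb0 : ∀ c : Chain (k + 2) M, g (bdry (k + 1) c) = 0 := by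
    intro c
    refine le_antisymm (hgb c) ?_
    have h := hgb (-c)
    rw [map_neg, map_neg] at h
    linarith
  have hgn : ∀ a : Chain (k + 1) M, g a ≤ norm1 a := by
    intro a
    refine (hg2 a).trans ((pp_le a 0).trans (le_of_eq ?_))
    rw [map_zero, add_zero]
  have hga : ∀ a : Chain (k + 1) M, |g a| ≤ norm1 a := by
    intro a
    refine abs_le.2 ⟨?_, hgn a⟩
    have h := hgn (-a)
    rw [map_neg, norm1_neg] at h
    linarith
  obtain ⟨ψ, hψ⟩ := hB (fun σ => g (Finsupp.single σ 1))
    ⟨1, fun σ => (hga _).trans (le_of_eq (norm1_single σ))⟩ (by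
      intro τ
      have h := hgb0 (Finsupp.single τ 1)
      unfold bdry at h
      rw [Finsupp.linearCombination_single, one_smul, map_sum] at h
      rw [← h]
      refine Finset.sum_congr rfl fun i _ => ?_
      rw [map_smul, smul_eq_mul])
  have hfin : g = (Finsupp.linearCombination ℝ ψ).comp (bdry k) := by
    refine Finsupp.lhom_ext' fun σ => LinearMap.ext_ring ?_
    simp only [LinearMap.comp_apply, Finsupp.lsingle_apply]
    unfold bdry
    rw [Finsupp.linearCombination_single, one_smul, map_sum, hψ σ]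
    refine Finset.sum_congr rfl fun i _ => ?_
    rw [map_smul, Finsupp.linearCombination_single, smul_eq_mul, one_smul]
  have : g z = 0 := by
    rw [hfin, LinearMap.comp_apply, hz, map_zero]
  linarith

end Pool.Agent.N340.SV.HB
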